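import Pool.Agent.H72.QP.Abstract

/-!
# Inner linearity of the quantum permutation algebras `C(S_n^+)`

`QPerm n` is the dense Hopf `*`-algebra `O(S_n^+)` of `C(S_n^+)`: the complex algebra generated by
the entries of a magic matrix `u`.  The theorem gives, for every `n ≥ 1`, a representation on
`ℂ ^ 4` sending the generators to Hermitian matrices whose Hopf image is the whole of `O(S_n^+)`,
in a form which covers purely algebraic quotients (`T = B ⊗ B`) and Hopf C*-algebra quotients
(`T` the minimal tensor product of `B` with itself).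
-/

namespace Pool.Agent.Results.MP_c25bf3_al.InnerLinear

open scoped TensorProduct

/-- The relations of a magic unitary: the entries are idempotents, pairwise orthogonal in each row
and in each column, and each row and each column sums to `1`. -/
inductive MagicRel (n : ℕ) :
    FreeAlgebra ℂ (Fin n × Fin n) → FreeAlgebra ℂ (Fin n × Fin n) → Prop
  | row (i j k : Fin n) : MagicRel n (FreeAlgebra.ι ℂ (i, j) * FreeAlgebra.ι ℂ (i, k))
      (if j = k then FreeAlgebra.ι ℂ (i, j) else 0)
  | col (i j k : Fin n) : MagicRel n (FreeAlgebra.ι ℂ (j, i) * FreeAlgebra.ι ℂ (k, i))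
      (if j = k then FreeAlgebra.ι ℂ (j, i) else 0)
  | rowsum (i : Fin n) : MagicRel n (∑ j, FreeAlgebra.ι ℂ (i, j)) 1
  | colsum (j : Fin n) : MagicRel n (∑ i, FreeAlgebra.ι ℂ (i, j)) 1

/-- The algebra `O(S_n^+)`. -/
abbrev QPerm (n : ℕ) : Type := RingQuot (MagicRel n)

/-- The generators `u_ij` of `O(S_n^+)`. -/
noncomputable def u {n : ℕ} (i j : Fin n) : QPerm n :=
  RingQuot.mkAlgHom ℂ (MagicRel n) (FreeAlgebra.ι ℂ (i, j))

lemma magic_u (n : ℕ) : H72QP.Magic (u (n := n)) := by
  constructor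
  · intro i j k
    have h := RingQuot.mkAlgHom_rel ℂ (MagicRel.row (n := n) i j k)
    rw [map_mul] at h
    rw [u, u, h]
    split_ifs <;> simp
  · intro i j k
    have h := RingQuot.mkAlgHom_rel ℂ (MagicRel.col (n := n) i j k)
    rw [map_mul] at h
    rw [u, u, h]
    split_ifs <;> simp
  · intro i
    have h := RingQuot.mkAlgHom_rel ℂ (MagicRel.rowsum (n := n) i)
    rw [map_sum, map_one] at h
    exact h
  · intro j
    have h := RingQuot.mkAlgHom_rel ℂ (MagicRel.colsum (n := n) j)
    rw [map_sum, map_one] at h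
    exact h

/-- the universal property. -/
noncomputable def lift {n : ℕ} {R : Type*} [Ring R] [Algebra ℂ R] (m : Fin n → Fin n → R)
    (hm : H72QP.Magic m) : QPerm n →ₐ[ℂ] R :=
  RingQuot.liftAlgHom ℂ ⟨FreeAlgebra.lift ℂ (fun p : Fin n × Fin n => m p.1 p.2), by
    intro x y h
    cases h with
    | row i j k =>
      rw [map_mul, FreeAlgebra.lift_ι_apply, FreeAlgebra.lift_ι_apply, hm.row]
      split_ifs <;> simp
    | col i j k =>
      rw [map_mul, FreeAlgebra.lift_ι_apply, FreeAlgebra.lift_ι_apply, hm.col]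
      split_ifs <;> simp
    | rowsum i =>
      simp only [map_sum, FreeAlgebra.lift_ι_apply, map_one]
      exact hm.rowsum i
    | colsum j =>
      simp only [map_sum, FreeAlgebra.lift_ι_apply, map_one]
      exact hm.colsum j⟩

lemma lift_u {n : ℕ} {R : Type*} [Ring R] [Algebra ℂ R] (m : Fin n → Fin n → R)
    (hm : H72QP.Magic m) (i j : Fin n) : lift m hm (u i j) = m i j := by
  rw [lift, u, RingQuot.liftAlgHom_mkAlgHom_apply, FreeAlgebra.lift_ι_apply]

lemma adjoin_u (n : ℕ) :
    Algebra.adjoin ℂ (Set.range fun p : Fin n × Fin n => u (n := n) p.1 p.2) = ⊤ := by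
  rw [eq_top_iff]
  rintro x -
  obtain ⟨y, rfl⟩ := RingQuot.mkAlgHom_surjective ℂ (MagicRel n) x
  induction y using FreeAlgebra.induction with
  | grade0 r =>
    rw [AlgHom.commutes]
    exact Subalgebra.algebraMap_mem _ _
  | grade1 p => exact Algebra.subset_adjoin ⟨p, rfl⟩
  | mul a b ha hb =>
    rw [map_mul]
    exact Subalgebra.mul_mem _ ha hb
  | add a b ha hb =>
    rw [map_add]
    exact Subalgebra.add_mem _ ha hb

/-- **Inner linearity of `C(S_n^+)`, uniformly in dimension four.**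
For every `n ≥ 1` there is a representation `π` of `O(S_n^+)` on `ℂ ^ 4`, with Hermitian images of
the generators, which is inner faithful: whenever `π` factors through an algebra map
`q : O(S_n^+) → B`, and `B` carries an algebra map `Δ : B → T` to an algebra `T` containing
`B ⊗ B` (via `j`) with `Δ(q(u_ik)) = ∑_a q(u_ia) ⊗ q(u_ak)`, then `q` is injective.  So the Hopf
image of `π` is all of `C(S_n^+)`. -/
theorem result.{v, w} (n : ℕ) (hn : 1 ≤ n) :
    ∃ π : QPerm n →ₐ[ℂ] Matrix (Fin 4) (Fin 4) ℂ,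
      (∀ i j : Fin n, (π (u i j)).IsHermitian) ∧
      ∀ (B : Type v) (T : Type w) [Ring B] [Algebra ℂ B] [Ring T] [Algebra ℂ T]
        (q : QPerm n →ₐ[ℂ] B) (ρ : B →ₐ[ℂ] Matrix (Fin 4) (Fin 4) ℂ)
        (j : B ⊗[ℂ] B →ₐ[ℂ] T) (Δ : B →ₐ[ℂ] T),
        ρ.comp q = π →
        Function.Injective j →
        (∀ i k : Fin n, Δ (q (u i k)) = j (∑ a, q (u i a) ⊗ₜ[ℂ] q (u a k))) →
        Function.Injective q := by
  obtain ⟨M, hM, hMs, hMt, hGen⟩ := H72QP.exists_model n
  obtain ⟨σ1, σ2, hσ, hcl⟩ := H72QP.exists_generators n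
  refine ⟨lift (H72QP.m4 M σ1 σ2) (H72QP.magic_m4 hM σ1 σ2), ?_, ?_⟩
  · intro i j
    rw [lift_u]
    exact H72QP.herm_m4 hMt σ1 σ2 i j
  · intro B T _ _ _ _ q ρ j Δ hρ hj hΔ
    refine H72QP.abstract_faithful hn hM hMs hGen hσ hcl u (magic_u n) (adjoin_u n) q j hj Δ
      hΔ ρ ?_
    intro i k
    have := congrArg (fun φ : QPerm n →ₐ[ℂ] Matrix (Fin 4) (Fin 4) ℂ => φ (u i k)) hρ
    simp only [AlgHom.comp_apply] at this
    rw [this, lift_u]

end Pool.Agent.Results.MP_c25bf3_al.InnerLinear
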